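import Pool.Agent.helper83.GR.Spec

/-!
# Project gr, module PPT: decomposition into the `p`-part and the `p`-regular part
-/

set_option autoImplicit false

namespace Pool.Agent.GR

open Pool.Agent.helper58.DC Pool.Agent.DI

/-- Exponents for the `p`-part and the `p`-regular part. -/
theorem PPT_ex {p n : ℕ} (hp : p.Prime) (hn : n ≠ 0) :
    ∃ e f : ℕ, (∀ m, m ∣ n → (∃ k, m ∣ p ^ k) → e ≡ 1 [MOD m] ∧ f ≡ 0 [MOD m]) ∧
      (∀ m, m ∣ n → ¬ p ∣ m → e ≡ 0 [MOD m] ∧ f ≡ 1 [MOD m]) ∧ e + f ≡ 1 [MOD n] := by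
  set a := p ^ n.factorization p with ha
  set b := n / p ^ n.factorization p with hb
  have hab : a * b = n := Nat.ordProj_mul_ordCompl_eq_self n p
  have hpb : p.Coprime b := Nat.coprime_ordCompl hp hn
  have hco : a.Coprime b := hpb.pow_left _
  obtain ⟨e, he1, he2⟩ := Nat.chineseRemainder hco 1 0
  obtain ⟨f, hf1, hf2⟩ := Nat.chineseRemainder hco 0 1
  refine ⟨e, f, ?_, ?_, ?_⟩
  · rintro m hm ⟨k, hk⟩
    have hmb : m.Coprime b := (hpb.pow_left k).coprime_dvd_left hk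
    have hma : m ∣ a := hmb.dvd_of_dvd_mul_right (by rw [hab]; exact hm)
    exact ⟨he1.of_dvd hma, hf1.of_dvd hma⟩
  · intro m hm hpm
    have hmp : m.Coprime a := ((hp.coprime_iff_not_dvd.mpr hpm).pow_left _).symm
    have hmb : m ∣ b := hmp.dvd_of_dvd_mul_left (by rw [hab]; exact hm)
    exact ⟨he2.of_dvd hmb, hf2.of_dvd hmb⟩
  · rw [← hab]
    refine (Nat.modEq_and_modEq_iff_modEq_mul hco).mp ⟨?_, ?_⟩
    · simpa using he1.add hf1
    · simpa using he2.add hf2

theorem PPT_fs {G : Type} [Fintype G] (s : Set G) (F : G → ℂ) [DecidablePred (· ∈ s)] :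
    ∑ᶠ g ∈ s, F g = ∑ g ∈ Finset.univ.filter (· ∈ s), F g := by
  rw [finsum_eq_sum_of_fintype, Finset.sum_filter]
  refine Finset.sum_congr rfl fun g _ => ?_
  exact finsum_eq_if

theorem PPT : PPT_stmt := by
  intro p hp G _ _ H F
  classical
  have := Fintype.ofFinite G
  choose! e f h1 h2 h3 using fun n : ℕ => fun hn : n ≠ 0 => PPT_ex (n := n) hp hn
  rw [PPT_fs, PPT_fs]
  have hR : ∀ y : G, ∑ᶠ v ∈ {v : G | v ∈ Cz H y ∧ PReg p v}, F (y * v) =
      ∑ v ∈ Finset.univ.filter (fun v : G => v ∈ Cz H y ∧ PReg p v), F (y * v) := fun y =>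
    PPT_fs {v : G | v ∈ Cz H y ∧ PReg p v} fun v => F (y * v)
  simp only [hR]
  rw [Finset.sum_sigma']
  symm
  have hor : ∀ g : G, orderOf g ≠ 0 := fun g => (orderOf_pos g).ne'
  refine Finset.sum_nbij' (i := fun x => x.1 * x.2)
    (j := fun g => ⟨g ^ e (orderOf g), g ^ f (orderOf g)⟩) ?_ ?_ ?_ ?_ ?_
  · rintro ⟨y, v⟩ hx
    simp only [Finset.mem_sigma, Finset.mem_filter, Finset.mem_univ, true_and, Set.mem_setOf_eq,
      Cz, Subgroup.mem_inf] at hx ⊢
    exact H.mul_mem hx.1.1 hx.2.1.1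
  · intro g hg
    simp only [Finset.mem_sigma, Finset.mem_filter, Finset.mem_univ, true_and, Set.mem_setOf_eq,
      Cz, Subgroup.mem_inf] at hg ⊢
    have hg' : g ∈ H := hg
    set n := orderOf g with hn
    have hn0 : n ≠ 0 := hor g
    set b := n / p ^ n.factorization p with hb
    have hab : p ^ n.factorization p * b = n := Nat.ordProj_mul_ordCompl_eq_self n p
    have hpb : ¬ p ∣ b := Nat.not_dvd_ordCompl hp hn0
    have hbe : b ∣ e n := (Nat.modEq_zero_iff_dvd).mp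
      (h2 n hn0 b ⟨p ^ n.factorization p, by rw [mul_comm]; exact hab.symm⟩ hpb).1
    have haf : p ^ n.factorization p ∣ f n := (Nat.modEq_zero_iff_dvd).mp
      (h1 n hn0 _ ⟨b, hab.symm⟩ ⟨_, dvd_rfl⟩).2
    refine ⟨⟨H.pow_mem hg' _, n.factorization p, ?_⟩, ⟨H.pow_mem hg' _, ?_⟩, ?_⟩
    · rw [← pow_mul, ← orderOf_dvd_iff_pow_eq_one, ← hn]
      calc n = b * p ^ n.factorization p := by rw [mul_comm]; exact hab.symm
        _ ∣ e n * p ^ n.factorization p := Nat.mul_dvd_mul_right hbe _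
    · rw [Subgroup.mem_centralizer_singleton_iff]
      rw [← pow_add, ← pow_add, add_comm]
    · intro hd
      have : orderOf (g ^ f n) ∣ b := by
        rw [orderOf_dvd_iff_pow_eq_one, ← pow_mul, ← orderOf_dvd_iff_pow_eq_one, ← hn]
        calc n = p ^ n.factorization p * b := hab.symm
          _ ∣ f n * b := Nat.mul_dvd_mul_right haf _
      exact hpb (hd.trans this)
  · rintro ⟨y, v⟩ hx
    simp only [Finset.mem_sigma, Finset.mem_filter, Finset.mem_univ, true_and, Set.mem_setOf_eq,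
      Cz, Subgroup.mem_inf] at hx
    obtain ⟨⟨hyH, k, hk⟩, ⟨hvH, hvc⟩, hreg⟩ := hx
    have hcomm : Commute y v := by
      rw [Subgroup.mem_centralizer_singleton_iff] at hvc
      exact hvc.symm
    have hyd : orderOf y ∣ p ^ k := orderOf_dvd_of_pow_eq_one hk
    have hcop : (orderOf y).Coprime (orderOf v) :=
      Nat.Coprime.coprime_dvd_left hyd ((hp.coprime_iff_not_dvd.mpr hreg).pow_left k)
    have hord : orderOf (y * v) = orderOf y * orderOf v :=
      hcomm.orderOf_mul_eq_mul_orderOf_of_coprime hcop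
    have hn0 : orderOf (y * v) ≠ 0 := hor _
    have a1 := h1 _ hn0 (orderOf y) (hord ▸ dvd_mul_right _ _) ⟨k, hyd⟩
    have a2 := h2 _ hn0 (orderOf v) (hord ▸ dvd_mul_left _ _) hreg
    have b1 : (y * v) ^ e (orderOf (y * v)) = y := by
      rw [hcomm.mul_pow, pow_eq_pow_iff_modEq.mpr a1.1, pow_eq_pow_iff_modEq.mpr a2.1]
      simp
    have b2 : (y * v) ^ f (orderOf (y * v)) = v := by
      rw [hcomm.mul_pow, pow_eq_pow_iff_modEq.mpr a1.2, pow_eq_pow_iff_modEq.mpr a2.2]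
      simp
    simp only [b1, b2]
  · intro g hg
    simp only
    rw [← pow_add]
    conv_rhs => rw [← pow_one g]
    exact pow_eq_pow_iff_modEq.mpr (h3 _ (hor g))
  · rintro ⟨y, v⟩ hx
    rfl

end Pool.Agent.GR
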