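import Pool.Agent.helper88.GR.Spec

set_option autoImplicit false

open Complex Metric Set Filter Topology MeasureTheory
open MPS (om)
open PPS (pre TT fd)
open XPS (Df er dens tau)

noncomputable section

namespace GR

theorem ERI_pt (hERB : ERB_stmt) (n : ℕ) (c : ℂ) (p q : ℕ) (hR : Ret n c p q) (z : ℂ) (hz : z ≠ c)
    (hzj : ∀ j, 1 ≤ j → j ≤ p + 1 → z ≠ Z n c j) :
    ‖er (fp n c) (B n c p q) z‖ ≤ ‖S n c p - lam n c p q * S n c q‖ * (1 / ‖z - c‖) +
      (‖Z n c p‖ / ‖A n c p‖ / n) * (‖Z n c q ^ n - Z n c p ^ n‖ /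
        (‖z - c‖ * ‖z - c - Z n c p ^ n‖ * ‖z - c - Z n c q ^ n‖)) := by
  rw [hERB n c p q hR z hz hzj]
  refine (norm_add_le _ _).trans ?_
  apply add_le_add
  · rw [norm_div, mul_one_div]
  · rw [norm_mul, norm_div, norm_div, norm_mul, norm_mul, norm_mul, Complex.norm_natCast]
    apply le_of_eq
    rw [div_div, mul_comm (‖A n c p‖)]

theorem ERI_first (hMI : MPS.MI_stmt) (c : ℂ) (hc : ‖c‖ ≤ 2) (s : ℝ) (hs : 0 ≤ s) :
    ∫⁻ z in ball (0 : ℂ) 4, ENNReal.ofReal (s * (1 / ‖z - c‖)) ≤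
      ENNReal.ofReal (s * (12 * Real.pi)) := by
  obtain ⟨hint, hval⟩ := hMI.2 c 6 (by norm_num)
  have hsub : ball (0 : ℂ) 4 ⊆ ball c 6 := by
    intro z hz
    rw [mem_ball_zero_iff] at hz
    rw [mem_ball, dist_eq_norm]
    calc ‖z - c‖ ≤ ‖z‖ + ‖c‖ := norm_sub_le _ _
      _ < 6 := by linarith
  calc ∫⁻ z in ball (0 : ℂ) 4, ENNReal.ofReal (s * (1 / ‖z - c‖))
      ≤ ∫⁻ z in ball c 6, ENNReal.ofReal (s * (1 / ‖z - c‖)) := lintegral_mono_set hsub
    _ = ∫⁻ z in ball c 6, ENNReal.ofReal s * ENNReal.ofReal (1 / ‖z - c‖) := by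
        simp_rw [ENNReal.ofReal_mul hs]
    _ = ENNReal.ofReal s * ∫⁻ z in ball c 6, ENNReal.ofReal (1 / ‖z - c‖) := by
        rw [lintegral_const_mul' _ _ ENNReal.ofReal_ne_top]
    _ = ENNReal.ofReal s * ENNReal.ofReal (∫ z in ball c 6, 1 / ‖z - c‖) := by
        rw [ofReal_integral_eq_lintegral_ofReal hint
          (Filter.Eventually.of_forall fun z => by positivity)]
    _ = ENNReal.ofReal (s * (12 * Real.pi)) := by
        rw [hval, ← ENNReal.ofReal_mul hs]
        congr 1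
        ring

/-- ERI: the integral of the error. -/
theorem ERI (hERB : ERB_stmt) (hKER : KER_stmt) (hMI : MPS.MI_stmt) : ERI_stmt := by
  obtain ⟨C₁, hC₁, hK⟩ := hKER
  refine ⟨12 * Real.pi + C₁, by positivity, fun n c p q κ hR hX hκ hS => ?_⟩
  set a := Z n c p ^ n with ha
  set b := Z n c q ^ n with hb
  have hn0 : 0 < n := lt_of_lt_of_le (by norm_num) hR.hn
  have hn0' : (0 : ℝ) < n := by exact_mod_cast hn0
  have hn1' : (1 : ℝ) ≤ n := by exact_mod_cast hn0
  have hp1 : 1 ≤ p := hR.q1.trans hR.qp.le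
  have hZp : Z n c p ≠ 0 := hR.ne0 p hp1 le_rfl
  have ha0 : a ≠ 0 := pow_ne_zero _ hZp
  have hlog : Real.log (‖b‖ / ‖a‖) = n * Real.log (X n c p q) := by
    rw [ha, hb, norm_pow, norm_pow, ← div_pow, Real.log_pow]; rfl
  have hab : 2 * ‖a‖ ≤ ‖b‖ := by
    have h1 : ‖b‖ / ‖a‖ = X n c p q ^ n := by
      rw [ha, hb, norm_pow, norm_pow, ← div_pow]; rfl
    have h2 : (2 : ℝ) ≤ X n c p q ^ n := by
      calc (2 : ℝ) ≤ X n c p q := hX
        _ = X n c p q ^ 1 := (pow_one _).symm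
        _ ≤ X n c p q ^ n := pow_le_pow_right₀ (by linarith) hn0
    rw [← h1, le_div_iff₀ (norm_pos_iff.2 ha0)] at h2
    exact h2
  set s := ‖S n c p - lam n c p q * S n c q‖ with hs
  set r := ‖Z n c p‖ / ‖A n c p‖ with hr
  have hr0 : 0 ≤ r := by positivity
  have hs0 : 0 ≤ s := norm_nonneg _
  have hL0 : 0 ≤ Real.log (X n c p q) := Real.log_nonneg (by linarith)
  -- almost every point
  have hfin : ({c} ∪ (fun j => Z n c j) '' (Finset.Icc 1 (p + 1) : Set ℕ)).Finite :=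
    (Set.finite_singleton c).union ((Finset.finite_toSet _).image _)
  have hae : ∀ᵐ z ∂(volume.restrict (ball (0 : ℂ) 4)),
      ENNReal.ofReal ‖er (fp n c) (B n c p q) z‖ ≤
      ENNReal.ofReal (s * (1 / ‖z - c‖)) + ENNReal.ofReal ((r / n) * (‖b - a‖ /
        (‖z - c‖ * ‖z - c - a‖ * ‖z - c - b‖))) := by
    apply ae_restrict_of_ae
    filter_upwards [hfin.countable.ae_notMem volume] with z hz
    rw [← ENNReal.ofReal_add (by positivity) (by positivity)]
    apply ENNReal.ofReal_le_ofReal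
    apply ERI_pt hERB n c p q hR z
    · intro h; exact hz (Or.inl h)
    · intro j h1 h2 h
      exact hz (Or.inr ⟨j, by simp; omega, h.symm⟩)
  have hsecond : ∫⁻ z in ball (0 : ℂ) 4, ENNReal.ofReal ((r / n) * (‖b - a‖ /
        (‖z - c‖ * ‖z - c - a‖ * ‖z - c - b‖))) ≤
      ENNReal.ofReal ((r / n) * (C₁ * (1 + n * Real.log (X n c p q)))) := by
    have hrn : 0 ≤ r / n := by positivity
    calc ∫⁻ z in ball (0 : ℂ) 4, ENNReal.ofReal ((r / n) * (‖b - a‖ /
        (‖z - c‖ * ‖z - c - a‖ * ‖z - c - b‖)))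
        ≤ ∫⁻ z : ℂ, ENNReal.ofReal ((r / n) * (‖b - a‖ /
          (‖z - c‖ * ‖z - c - a‖ * ‖z - c - b‖))) := setLIntegral_le_lintegral _ _
      _ = ∫⁻ z : ℂ, ENNReal.ofReal (r / n) * ENNReal.ofReal (‖b - a‖ /
          (‖z - c‖ * ‖z - c - a‖ * ‖z - c - b‖)) := by
          simp_rw [ENNReal.ofReal_mul hrn]
      _ = ENNReal.ofReal (r / n) * ∫⁻ z : ℂ, ENNReal.ofReal (‖b - a‖ /
          (‖z - c‖ * ‖z - c - a‖ * ‖z - c - b‖)) := by
          rw [lintegral_const_mul' _ _ ENNReal.ofReal_ne_top]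
      _ = ENNReal.ofReal (r / n) * ∫⁻ z : ℂ, ENNReal.ofReal (‖b - a‖ /
          (‖z‖ * ‖z - a‖ * ‖z - b‖)) := by
          congr 1
          exact lintegral_sub_right_eq_self (fun z : ℂ => ENNReal.ofReal (‖b - a‖ /
            (‖z‖ * ‖z - a‖ * ‖z - b‖))) c
      _ ≤ ENNReal.ofReal (r / n) * ENNReal.ofReal (C₁ * (1 + Real.log (‖b‖ / ‖a‖))) := by
          gcongr
          exact hK a b ha0 hab
      _ = ENNReal.ofReal ((r / n) * (C₁ * (1 + n * Real.log (X n c p q)))) := by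
          rw [hlog, ← ENNReal.ofReal_mul hrn]
  calc ∫⁻ z in ball (0 : ℂ) 4, ENNReal.ofReal ‖er (fp n c) (B n c p q) z‖
      ≤ ∫⁻ z in ball (0 : ℂ) 4, (ENNReal.ofReal (s * (1 / ‖z - c‖)) +
        ENNReal.ofReal ((r / n) * (‖b - a‖ / (‖z - c‖ * ‖z - c - a‖ * ‖z - c - b‖)))) :=
        lintegral_mono_ae hae
    _ = (∫⁻ z in ball (0 : ℂ) 4, ENNReal.ofReal (s * (1 / ‖z - c‖))) +
        ∫⁻ z in ball (0 : ℂ) 4, ENNReal.ofReal ((r / n) * (‖b - a‖ /
          (‖z - c‖ * ‖z - c - a‖ * ‖z - c - b‖))) := by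
        rw [lintegral_add_left]
        have hm : Measurable fun z : ℂ => s * (1 / ‖z - c‖) := by fun_prop
        exact hm.ennreal_ofReal
    _ ≤ ENNReal.ofReal (s * (12 * Real.pi)) +
        ENNReal.ofReal ((r / n) * (C₁ * (1 + n * Real.log (X n c p q)))) := by
        gcongr
        exact ERI_first hMI c hR.hc s hs0
    _ = ENNReal.ofReal (s * (12 * Real.pi) + (r / n) * (C₁ * (1 + n * Real.log (X n c p q)))) := by
        rw [ENNReal.ofReal_add (by positivity) (by positivity)]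
    _ ≤ ENNReal.ofReal ((12 * Real.pi + C₁) * κ * r * (1 + Real.log (X n c p q))) := by
        apply ENNReal.ofReal_le_ofReal
        have h1 : s * (12 * Real.pi) ≤ κ * r * (1 + Real.log (X n c p q)) * (12 * Real.pi) := by
          gcongr
        have h2 : (r / n) * (C₁ * (1 + n * Real.log (X n c p q))) ≤
            r * (C₁ * (1 + Real.log (X n c p q))) := by
          rw [div_mul_eq_mul_div, div_le_iff₀ hn0']
          have : C₁ * (1 + n * Real.log (X n c p q)) ≤ C₁ * (1 + Real.log (X n c p q)) * n := by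
            rw [mul_assoc]
            apply mul_le_mul_of_nonneg_left _ hC₁.le
            nlinarith
          calc r * (C₁ * (1 + n * Real.log (X n c p q)))
              ≤ r * (C₁ * (1 + Real.log (X n c p q)) * n) := by gcongr
            _ = r * (C₁ * (1 + Real.log (X n c p q))) * n := by ring
        have h3 : r * (C₁ * (1 + Real.log (X n c p q))) ≤
            κ * (r * (C₁ * (1 + Real.log (X n c p q)))) := by
          apply le_mul_of_one_le_left _ hκ
          positivity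
        nlinarith

end GR
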